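import Pool.Agent.W794.Bk14

/-!
Planar minimisers of the buckling load of a clamped plate under a perimeter bound have no corners.

Idea of the proof. Let `0` be a corner of an optimal convex set `Ω`; then `Ω` lies in a cone
`{0 < s, |z| ≤ T s}` for orthonormal coordinates `(s, z)`.
* (weighted identity) for `u ∈ C_c^∞` of the half-plane `s > 0`, `w = s^(-b)`,
  `∫ Δu Δ(u w) = ∫ w |D²u|² - 2 ∫ w'' u_s² - ∫ w'' u_z² + ½ ∫ w'''' u²`;
  with Hardy's inequality in `s` and Poincaré's inequality across the cone the right-hand side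
  controls `∫ w |D²u|²` for some `b > 1` which depends on `T` only.
* applied to near-minimisers with the vertex of the weight shifted outside of `Ω`, this bounds
  `∫ (s+τ)^(-b) |D²φ|²` independently of `τ`, so that cutting `Ω` at height `s = ε` raises the
  buckling eigenvalue by at most `C ε^b = o(ε)`.
* the cut lowers the De Giorgi perimeter by at least `c ε` (calibration by the field `-(1-κ²) e + κ z f / (2R)`).
* dilating the cut set back to perimeter `≤ p` gives a strictly better competitor.
-/

set_option autoImplicit false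

open MeasureTheory Set

namespace Pool.Agent.Results.MP_f5a338_an.NoCorner

open Pool.Agent.W794.Bk

/-- Let `Ω` be a convex optimal set of
`min {Λ₁(Ω) : Ω ⊂ ℝ² open, |Ω| < ∞, P(Ω) ≤ p}`. Then at every boundary point `Ω` has exactly one
supporting line, i.e. exactly one outer unit normal `ν`. -/
theorem result : ∀ (p : ℝ) (Ω : Set E2), 0 < p → IsOptimal p Ω → Convex ℝ Ω →
    ∀ x ∈ frontier Ω, ∃! ν : E2, ‖ν‖ = 1 ∧ ∀ y ∈ Ω, inner ℝ ν (y - x) ≤ 0 := by
  intro p Ω hp hopt hconv x hx
  have ho : IsOpen Ω := hopt.1.1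
  have hne : Ω.Nonempty := hopt.1.2.1
  have hxΩ : x ∉ Ω := by
    intro h
    rw [ho.frontier_eq] at hx
    exact hx.2 h
  obtain ⟨f, hf⟩ := geometric_hahn_banach_open_point hconv ho hxΩ
  set g : E2 := (InnerProductSpace.toDual ℝ E2).symm f with hg
  have hfg : ∀ y, f y = inner ℝ g y := by
    intro y; rw [hg]; simp
  have hg0 : g ≠ 0 := by
    intro h0
    obtain ⟨y, hy⟩ := hne
    have := hf y hy
    rw [hfg, hfg, h0] at this
    simp at this
  have hgn : 0 < ‖g‖ := norm_pos_iff.2 hg0
  refine ⟨(1 / ‖g‖) • g, ⟨?_, ?_⟩, ?_⟩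
  · rw [norm_smul, Real.norm_eq_abs, abs_of_pos (by positivity)]
    field_simp
  · intro y hy
    rw [inner_smul_left, inner_sub_right, ← hfg, ← hfg]
    have h1 := hf y hy
    have h2 : 0 < 1 / ‖g‖ := by positivity
    simp only [conj_trivial]
    exact mul_nonpos_of_nonneg_of_nonpos h2.le (by linarith)
  · rintro ν ⟨h1, h2⟩
    refine no_corner hp hopt hconv hx h1 ?_ h2 ?_
    · rw [norm_smul, Real.norm_eq_abs, abs_of_pos (by positivity)]
      field_simp
    · intro y hy
      rw [inner_smul_left, inner_sub_right, ← hfg, ← hfg]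
      have h1 := hf y hy
      have h2 : 0 < 1 / ‖g‖ := by positivity
      simp only [conj_trivial]
      exact mul_nonpos_of_nonneg_of_nonpos h2.le (by linarith)

end Pool.Agent.Results.MP_f5a338_an.NoCorner
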